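import Pool.Agent.Q283.LS.Stm

/-!
# Project LS of helper283: lemma job LA3 (the rank of a kernel over the 2-adic integers)
-/

set_option autoImplicit false

namespace Pool.Agent.Q285.LS

open Module

theorem la3 : Pool.Agent.Q283.LS.S_LA3 := by
  intro M N _ _ _ _ φ s t a ha hno
  obtain ⟨V, hV⟩ : ∃ V : Submodule ℤ_[2] M, V = Submodule.span ℤ_[2] (Set.range a) := ⟨_, rfl⟩
  rw [← hV] at hno ⊢
  let bs : Basis (Fin (s + t)) ℤ_[2] V := hV ▸ Basis.span ha
  have hfin : Module.Finite ℤ_[2] V := Module.Finite.of_basis bs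
  have hrk : finrank ℤ_[2] V = s + t := by
    rw [Module.finrank_eq_card_basis bs, Fintype.card_fin]
  let ψ : V →ₗ[ℤ_[2]] N := φ.domRestrict V
  have hsum := Submodule.finrank_quotient_add_finrank (LinearMap.ker ψ)
  rw [hrk, ψ.quotKerEquivRange.finrank_eq] at hsum
  have hr : finrank ℤ_[2] (LinearMap.range ψ) ≤ s := by
    by_contra hcon
    obtain ⟨f, hf⟩ := exists_linearIndependent_of_le_finrank (n := s + 1)
      (by omega : s + 1 ≤ finrank ℤ_[2] (LinearMap.range ψ))
    apply hno
    have hx : ∀ i, ∃ x : V, ψ x = f i := fun i => (f i).2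
    choose x hx using hx
    refine ⟨fun i => x i, fun i => (x i).2, ?_⟩
    have h1 : (fun i => φ (x i : M)) = fun i => ((f i : LinearMap.range ψ) : N) :=
      funext fun i => hx i
    rw [h1]
    exact hf.map' (LinearMap.range ψ).subtype (Submodule.ker_subtype _)
  obtain ⟨g, hg⟩ := exists_linearIndependent_of_le_finrank (n := t)
    (by omega : t ≤ finrank ℤ_[2] (LinearMap.ker ψ))
  refine ⟨fun i => ((g i : V) : M), ?_, fun i => ⟨(g i : V).2, ?_⟩⟩
  · have h2 : LinearIndependent ℤ_[2] fun i => (g i : V) :=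
      hg.map' (LinearMap.ker ψ).subtype (Submodule.ker_subtype _)
    exact h2.map' V.subtype (Submodule.ker_subtype _)
  · exact (g i).2

end Pool.Agent.Q285.LS
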