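import Pool.Agent.Q47.LS.Stm

/-!
# Project LS of helper47: the algebra of the cuts (JOB LS-ALG)
-/

set_option autoImplicit false

namespace Pool.Agent.Q285.LS

open Real Pool.Agent.Q47.LS

theorem two_sqrt_le {a x : ℝ} (ha : 0 ≤ a) (hx : 0 < x) : 2 * √a ≤ x + a / x := by
  have h1 : √a * √a = a := Real.mul_self_sqrt ha
  have h2 : x + a / x = (x * x + a) / x := by field_simp
  rw [h2, le_div_iff₀ hx]
  nlinarith [sq_nonneg (x - √a)]

theorem alg0_aux {a₁ a₂ k d₁ d₂ : ℝ} (h1 : 0 < a₁) (h2 : 0 < a₂) (hk : 0 ≤ k) (hG1 : GB a₁ k d₁)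
    (hG2 : GB a₂ k d₂) (hle : √a₁ ≤ √a₂) : 2 * √(a₁ + a₂) ≤ d₁ + d₂ - k := by
  obtain ⟨g1, g2⟩ := hG1
  obtain ⟨g3, g4⟩ := hG2
  have e1 : √a₁ * √a₁ = a₁ := Real.mul_self_sqrt h1.le
  have e2 : √a₂ * √a₂ = a₂ := Real.mul_self_sqrt h2.le
  have e3 : √(a₁ + a₂) * √(a₁ + a₂) = a₁ + a₂ := Real.mul_self_sqrt (by linarith)
  have p1 : 0 < √a₁ := Real.sqrt_pos.2 h1
  have p2 : 0 < √a₂ := Real.sqrt_pos.2 h2
  have p3 : 0 ≤ √(a₁ + a₂) := Real.sqrt_nonneg _
  rcases le_or_gt k (√a₁) with hk1 | hk1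
  · have h5 : 2 * √(a₁ + a₂) ≤ 2 * √a₂ + √a₁ := by
      refine abs_le_of_sq_le_sq' ?_ (by positivity) |>.2
      nlinarith [mul_pos p1 p2]
    linarith
  · have hk0 : 0 < k := p1.trans hk1
    have g2' := g2 hk0 (by nlinarith)
    rcases le_or_gt k (√a₂) with hk2 | hk2
    · have h5 : a₁ / √a₂ ≤ a₁ / k := div_le_div_of_nonneg_left h1.le hk0 hk2
      have h6 : 2 * √(a₁ + a₂) ≤ a₁ / √a₂ + 2 * √a₂ := by
        have h7 : 0 < a₁ / √a₂ := div_pos h1 p2
        refine abs_le_of_sq_le_sq' ?_ (by positivity) |>.2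
        have h8 : (a₁ / √a₂) * √a₂ = a₁ := div_mul_cancel₀ _ p2.ne'
        nlinarith [sq_nonneg (a₁ / √a₂)]
      linarith
    · have g4' := g4 hk0 (by nlinarith)
      have h5 := two_sqrt_le (a := a₁ + a₂) (by linarith) hk0
      rw [add_div] at h5
      linarith

theorem t_alg0 : S_alg0 := by
  intro a₁ a₂ k d₁ d₂ h1 h2 hk hG1 hG2
  rcases le_total (√a₁) (√a₂) with h | h
  · exact alg0_aux h1 h2 hk hG1 hG2 h
  · have h5 := alg0_aux h2 h1 hk hG2 hG1 h
    rw [add_comm a₂ a₁] at h5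
    linarith

/-- case IIb -/
theorem c2b {m₁ m₂ k r a₁ a₂ d₁ d₂ t : ℝ} (hr : r * (m₁ + m₂) = a₁ + a₂) (hrm : r ≤ m₁ + m₂)
    (hk : k < r) (hk0 : 0 ≤ k) (hm1 : 0 ≤ m₁) (hm2 : 0 ≤ m₂) (h1 : a₁ < m₁ * k) (hd1 : m₁ + k ≤ d₁)
    (ht : 0 < t) (hta : t * t = a₂) (g1 : 2 * t ≤ d₂) (g2 : 0 < m₂ → a₂ ≤ m₂ ^ 2 → m₂ + a₂ / m₂ ≤ d₂)
    (g3 : 0 < k → a₂ ≤ k ^ 2 → k + a₂ / k ≤ d₂) : m₁ + m₂ + r ≤ d₁ + d₂ - k := by
  have key : (r - k) * (m₁ + m₂) < a₂ - m₂ * k := by nlinarith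
  have hrk : 0 < r - k := by linarith
  suffices h : m₂ + r ≤ d₂ by linarith
  rcases le_or_gt t m₂ with h | h
  · have hm : 0 < m₂ := ht.trans_le h
    refine le_trans ?_ (g2 hm (by nlinarith))
    have : r ≤ a₂ / m₂ := by
      rw [le_div_iff₀ hm]
      nlinarith
    linarith
  · rcases le_or_gt t k with h' | h'
    · have hk1 : 0 < k := ht.trans_le h'
      refine le_trans ?_ (g3 hk1 (by nlinarith))
      have h5 : m₂ + r - k ≤ a₂ / k := by
        rw [le_div_iff₀ hk1]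
        nlinarith [mul_nonneg hrk.le (show 0 ≤ m₁ + m₂ - k by linarith)]
      linarith
    · refine le_trans ?_ g1
      rcases le_or_gt r t with h'' | h''
      · linarith
      · have h5 : (r - k) * t ≤ (r - k) * (m₁ + m₂) :=
          mul_le_mul_of_nonneg_left (by linarith) hrk.le
        have h6 : (m₂ + r) * t ≤ 2 * t * t := by
          nlinarith [mul_pos (show 0 < t - m₂ by linarith) (show 0 < t - k by linarith)]
        exact le_of_mul_le_mul_right h6 ht

/-- case IIa (ii): the second set is wide, the first one is not -/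
theorem c2ii {m₁ m₂ k r a₁ a₂ d₁ d₂ t : ℝ} (hr : r * (m₁ + m₂) = a₁ + a₂) (hrm : r ≤ m₁ + m₂)
    (hk : k < r) (hk0 : 0 ≤ k) (hm1 : 0 ≤ m₁) (hm2 : 0 < m₂) (ha2 : 0 < a₂) (h1 : m₁ * k ≤ a₁)
    (h2 : m₂ * k ≤ a₂) (hw : m₂ + a₂ / m₂ ≤ d₂) (ht : 0 < t) (hta : t * t = a₁) (hmt : m₁ < t)
    (g1 : 2 * t ≤ d₁) (g3 : 0 < k → a₁ ≤ k ^ 2 → k + a₁ / k ≤ d₁) :
    m₁ + m₂ + r ≤ d₁ + d₂ - k := by
  obtain ⟨r₂, hr2⟩ : ∃ r₂, r₂ = a₂ / m₂ := ⟨_, rfl⟩
  rw [← hr2] at hw
  have hr2' : r₂ * m₂ = a₂ := by rw [hr2, div_mul_cancel₀ _ hm2.ne']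
  have hr2k : k ≤ r₂ := by
    rw [hr2, le_div_iff₀ hm2]
    linarith
  have hm : 0 < m₁ + m₂ := by linarith
  have hr0 : 0 < r := hk0.trans_lt hk
  rcases le_or_gt t k with h | h
  · have hk1 : 0 < k := ht.trans_le h
    have g3' := g3 hk1 (by nlinarith)
    obtain ⟨w, hwd⟩ : ∃ w, w = a₁ / k := ⟨_, rfl⟩
    rw [← hwd] at g3'
    have hwk : w * k = a₁ := by rw [hwd, div_mul_cancel₀ _ hk1.ne']
    have hwm : m₁ ≤ w := by
      rw [hwd, le_div_iff₀ hk1]
      exact h1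
    rcases le_or_gt r r₂ with h' | h'
    · linarith
    · -- (r - r₂) m ≤ a₁ - m₁ k, (r - r₂) k ≤ (r - r₂) m
      have h5 : (r - r₂) * (m₁ + m₂) ≤ a₁ - m₁ * k := by nlinarith
      have h6 : (r - r₂) * k ≤ (r - r₂) * (m₁ + m₂) :=
        mul_le_mul_of_nonneg_left (by linarith) (by linarith)
      have h7 : (r - r₂) * k ≤ (w - m₁) * k := by nlinarith
      have h8 := le_of_mul_le_mul_right h7 hk1
      linarith
  · rcases le_or_gt r r₂ with h' | h'
    · linarith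
    · have h5 : (r - r₂) * (m₁ + m₂) ≤ a₁ - m₁ * k := by nlinarith
      have h9 : t ≤ m₁ + m₂ := by
        by_contra hcon
        push Not at hcon
        nlinarith
      have h6 : (r - r₂) * t ≤ (r - r₂) * (m₁ + m₂) :=
        mul_le_mul_of_nonneg_left h9 (by linarith)
      have h7 : (r - r₂) * t ≤ (2 * t - k - m₁) * t := by
        nlinarith [mul_pos (show 0 < t - m₁ by linarith) (show 0 < t - k by linarith)]
      have h8 := le_of_mul_le_mul_right h7 ht
      linarith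

/-- monotonicity of `x + a / x` -/
theorem mono {a m x y : ℝ} (hm : 0 < m) (ham : a ≤ m ^ 2) (hx : m ≤ x) (hy : a ≤ y * x) :
    m + a / m ≤ x + y := by
  have hx0 : 0 < x := hm.trans_le hx
  have h1 : m + a / m ≤ x + a / x := by
    have h2 : x + a / x - (m + a / m) = (x - m) * (x * m - a) / (x * m) := by
      field_simp
      ring
    have h3 : 0 ≤ (x - m) * (x * m - a) / (x * m) := by
      apply div_nonneg
      · apply mul_nonneg (by linarith)
        nlinarith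
      · positivity
    linarith
  have h2 : a / x ≤ y := by
    rw [div_le_iff₀ hx0]
    exact hy
  linarith

/-- case IIa (iii), the mixed case -/
theorem c2iii {m₁ m₂ k a₁ a₂ d₁ d₂ t : ℝ} (hm : 0 < m₁ + m₂)
    (ham : a₁ + a₂ ≤ (m₁ + m₂) ^ 2) (hk0 : 0 < k) (h1 : m₁ * k ≤ a₁) (ha1 : 0 < a₁)
    (g1 : k + a₁ / k ≤ d₁) (ht : 0 < t) (hta : t * t = a₂) (hmt : m₂ < t) (hkt : k < t)
    (g2 : 2 * t ≤ d₂) : m₁ + m₂ + (a₁ + a₂) / (m₁ + m₂) ≤ d₁ + d₂ - k := by
  obtain ⟨w, hwd⟩ : ∃ w, w = a₁ / k := ⟨_, rfl⟩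
  rw [← hwd] at g1
  have hwk : w * k = a₁ := by rw [hwd, div_mul_cancel₀ _ hk0.ne']
  have hwm : m₁ ≤ w := by
    rw [hwd, le_div_iff₀ hk0]
    exact h1
  have hw0 : 0 < w := by
    rw [hwd]
    exact div_pos ha1 hk0
  have h5 := mono hm ham (x := w + t) (y := t) (by linarith) (by nlinarith)
  linarith

theorem t_alg : S_alg := by
  intro a₁ a₂ m₁ m₂ k d₁ d₂ ha1 ha2 hm1 hm2 hk hm ham G1 K1 D1 G2 K2 D2
  obtain ⟨g1, g1'⟩ := G1
  obtain ⟨-, k1'⟩ := K1
  obtain ⟨g2, g2'⟩ := G2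
  obtain ⟨-, k2'⟩ := K2
  obtain ⟨t₁, ht1⟩ : ∃ t, t = √a₁ := ⟨_, rfl⟩
  obtain ⟨t₂, ht2⟩ : ∃ t, t = √a₂ := ⟨_, rfl⟩
  have e1 : t₁ * t₁ = a₁ := by rw [ht1]; exact Real.mul_self_sqrt ha1.le
  have e2 : t₂ * t₂ = a₂ := by rw [ht2]; exact Real.mul_self_sqrt ha2.le
  have p1 : 0 < t₁ := by rw [ht1]; exact Real.sqrt_pos.2 ha1
  have p2 : 0 < t₂ := by rw [ht2]; exact Real.sqrt_pos.2 ha2
  rw [← ht1] at g1
  rw [← ht2] at g2
  obtain ⟨r, hr⟩ : ∃ r, r = (a₁ + a₂) / (m₁ + m₂) := ⟨_, rfl⟩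
  have hrm' : r * (m₁ + m₂) = a₁ + a₂ := by rw [hr, div_mul_cancel₀ _ hm.ne']
  have hrm : r ≤ m₁ + m₂ := by
    rw [hr, div_le_iff₀ hm]
    nlinarith
  rw [← hr]
  rcases le_or_gt r k with hkr | hkr
  · linarith
  · rcases lt_or_ge a₁ (m₁ * k) with hb1 | hb1
    · exact c2b hrm' hrm hkr hk hm1 hm2 hb1 D1 p2 e2 g2 g2' k2'
    · rcases lt_or_ge a₂ (m₂ * k) with hb2 | hb2
      · have h5 := c2b (m₁ := m₂) (m₂ := m₁) (r := r) (a₁ := a₂) (a₂ := a₁) (by linarith)
          (by linarith) hkr hk hm2 hm1 hb2 D2 p1 e1 g1 g1' k1'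
        linarith
      · rcases le_or_gt t₁ m₁ with w1 | w1
        · have q1 : 0 < m₁ := p1.trans_le w1
          have g1'' := g1' q1 (by nlinarith)
          rcases le_or_gt t₂ m₂ with w2 | w2
          · have q2 : 0 < m₂ := p2.trans_le w2
            have g2'' := g2' q2 (by nlinarith)
            obtain ⟨r₁, hr1⟩ : ∃ r₁, r₁ = a₁ / m₁ := ⟨_, rfl⟩
            obtain ⟨r₂, hr2⟩ : ∃ r₂, r₂ = a₂ / m₂ := ⟨_, rfl⟩
            rw [← hr1] at g1''
            rw [← hr2] at g2''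
            have s1 : r₁ * m₁ = a₁ := by rw [hr1, div_mul_cancel₀ _ q1.ne']
            have s2 : r₂ * m₂ = a₂ := by rw [hr2, div_mul_cancel₀ _ q2.ne']
            have u1 : k ≤ r₁ := by
              rw [hr1, le_div_iff₀ q1]
              linarith
            have u2 : k ≤ r₂ := by
              rw [hr2, le_div_iff₀ q2]
              linarith
            have h5 : r ≤ max r₁ r₂ := by
              by_contra hcon
              push Not at hcon
              have v1 := (max_lt_iff.1 hcon).1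
              have v2 := (max_lt_iff.1 hcon).2
              nlinarith
            rcases max_le_iff.1 (le_refl (max r₁ r₂)) with ⟨-, -⟩
            rcases le_total r₁ r₂ with h6 | h6
            · rw [max_eq_right h6] at h5
              linarith
            · rw [max_eq_left h6] at h5
              linarith
          · have h5 := c2ii (m₁ := m₂) (m₂ := m₁) (r := r) (a₁ := a₂) (a₂ := a₁) (d₁ := d₂) (d₂ := d₁)
              (by linarith) (by linarith) hkr hk hm2 q1 ha1 hb2 hb1 g1'' p2 e2 w2 g2 k2'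
            linarith
        · rcases le_or_gt t₂ m₂ with w2 | w2
          · have q2 : 0 < m₂ := p2.trans_le w2
            have g2'' := g2' q2 (by nlinarith)
            exact c2ii hrm' hrm hkr hk hm1 q2 ha2 hb1 hb2 g2'' p1 e1 w1 g1 k1'
          · rw [hr]
            rcases le_or_gt t₁ k with x1 | x1
            · have hk0 : 0 < k := p1.trans_le x1
              have k1'' := k1' hk0 (by nlinarith)
              rcases le_or_gt t₂ k with x2 | x2
              · have k2'' := k2' hk0 (by nlinarith)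
                have h5 : (a₁ + a₂) / (m₁ + m₂) + (m₁ + m₂) ≤ k + (a₁ + a₂) / k := by
                  rw [← hr, ← hrm']
                  have h6 : k + r * (m₁ + m₂) / k - (r + (m₁ + m₂)) =
                      (r - k) * ((m₁ + m₂) - k) / k := by
                    field_simp
                    ring
                  have h7 : 0 ≤ (r - k) * ((m₁ + m₂) - k) / k := by
                    apply div_nonneg _ hk0.le
                    apply mul_nonneg <;> linarith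
                  linarith
                rw [add_div (a₁) a₂ k] at h5
                linarith
              · exact c2iii hm ham hk0 hb1 ha1 k1'' p2 e2 w2 x2 g2
            · rcases le_or_gt t₂ k with x2 | x2
              · have hk0 : 0 < k := p2.trans_le x2
                have k2'' := k2' hk0 (by nlinarith)
                have h5 := c2iii (m₁ := m₂) (m₂ := m₁) (a₁ := a₂) (a₂ := a₁) (d₁ := d₂) (d₂ := d₁)
                  (by linarith) (by nlinarith) hk0 hb2 ha2 k2'' p1 e1 w1 x1 g1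
                rw [add_comm m₂ m₁, add_comm a₂ a₁] at h5
                linarith
              · have h5 := mono hm ham (x := t₁ + t₂) (y := t₁ + t₂ - k) (by linarith)
                  (by nlinarith [mul_pos p1 (show 0 < t₂ - k by linarith),
                    mul_pos p2 (show 0 < t₁ - k by linarith)])
                linarith

end Pool.Agent.Q285.LS
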