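import Pool.Agent.Q285.LS.Cn

/-!
# Project LS of helper47: the arc lemma (JOB LS-ARC)
-/

set_option autoImplicit false

namespace Pool.Agent.Q285.LS

open Real Pool.Agent.Q47.LS Finset

theorem t_arc : S_bad → S_arc := by
  classical
  intro hbad lam hl1 hl2 X hX
  have h30 : 0 < √3 := Real.sqrt_pos.mpr (by norm_num)
  have hlam : 0 < lam := by linarith
  obtain ⟨ε, hε⟩ : ∃ ε, ε = arcsin (1 - lam) := ⟨_, rfl⟩
  have hε0 : 0 ≤ ε := by
    rw [hε]
    exact arcsin_nonneg.2 (by linarith)
  have hε2 : ε ≤ π / 2 := by
    rw [hε]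
    exact arcsin_le_pi_div_two _
  have hsin : sin ε = 1 - lam := by
    rw [hε, sin_arcsin (by linarith) (by linarith)]
  have main : ∀ n : ℕ, ∀ Q ⊆ X, Q.card = n → ∀ α β : ℝ, α ≤ β → β - α < π - 2 * ε →
      ∀ E : Finset (Pt × Pt), (∀ p ∈ E, p.1 ∈ Q ∧ p.2 ∈ X ∧ dsq p.1 p.2 = 4 ∧
       ∃ s b, α ≤ s ∧ s ≤ β ∧ Line lam X s b ∧ (∀ z ∈ Q, lf s z < b) ∧ b < lf s p.2) →
      cn Q Q + 2 * E.card ≤ 4 * Q.card := by
    intro n
    induction n using Nat.strong_induction_on with
    | _ n ih =>
      intro Q hQ hn α β hαβ hW E hE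
      by_cases hcase : ∃ s b, Line lam X s b ∧ (∃ z ∈ Q, lf s z < b) ∧ (∃ z ∈ Q, b < lf s z) ∧
        max β s - min α s < π - 2 * ε
      · obtain ⟨s, b, hl, hz1, hz2, hlen⟩ := hcase
        obtain ⟨hd, hu, hc⟩ := parts hlam hl hQ
        obtain ⟨Q₁, hQ1⟩ : ∃ Q₁, Q₁ = Q.filter fun z => lf s z < b := ⟨_, rfl⟩
        obtain ⟨Q₂, hQ2⟩ : ∃ Q₂, Q₂ = Q.filter fun z => b < lf s z := ⟨_, rfl⟩
        rw [← hQ1, ← hQ2] at hd hu hc
        have m1 : ∀ z, z ∈ Q₁ ↔ z ∈ Q ∧ lf s z < b := fun z => by rw [hQ1, mem_filter]
        have m2 : ∀ z, z ∈ Q₂ ↔ z ∈ Q ∧ b < lf s z := fun z => by rw [hQ2, mem_filter]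
        have p1 : 0 < Q₁.card := by
          obtain ⟨z, hz, hz'⟩ := hz1
          exact card_pos.2 ⟨z, (m1 z).2 ⟨hz, hz'⟩⟩
        have p2 : 0 < Q₂.card := by
          obtain ⟨z, hz, hz'⟩ := hz2
          exact card_pos.2 ⟨z, (m2 z).2 ⟨hz, hz'⟩⟩
        have s1 : Q₁ ⊆ X := fun z hz => hQ ((m1 z).1 hz).1
        have s2 : Q₂ ⊆ X := fun z hz => hQ ((m2 z).1 hz).1
        obtain ⟨E₁, hE1⟩ : ∃ E₁, E₁ = E.filter fun p => p.1 ∈ Q₁ := ⟨_, rfl⟩
        obtain ⟨E₂, hE2⟩ : ∃ E₂, E₂ = E.filter fun p => p.1 ∈ Q₂ := ⟨_, rfl⟩
        obtain ⟨C, hC⟩ : ∃ C, C = (Q₁ ×ˢ Q₂).filter fun p => dsq p.1 p.2 = 4 := ⟨_, rfl⟩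
        have hCc : C.card = cn Q₁ Q₂ := by rw [hC]; rfl
        have hEc : E.card = E₁.card + E₂.card := by
          rw [← card_union_of_disjoint]
          · congr 1
            ext p
            rw [mem_union, hE1, hE2, mem_filter, mem_filter]
            constructor
            · intro hp
              rcases (hu p.1).1 (hE p hp).1 with h | h
              · exact Or.inl ⟨hp, h⟩
              · exact Or.inr ⟨hp, h⟩
            · rintro (h | h)
              · exact h.1
              · exact h.1
          · rw [Finset.disjoint_left]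
            intro p hp hp'
            rw [hE1, mem_filter] at hp
            rw [hE2, mem_filter] at hp'
            exact Finset.disjoint_left.1 hd hp.2 hp'.2
        have hdis : Disjoint E₁ C := by
          rw [Finset.disjoint_left]
          intro p hp hp'
          rw [hE1, mem_filter] at hp
          rw [hC, mem_filter, mem_product] at hp'
          obtain ⟨-, -, -, s', b', -, -, -, h1, h2⟩ := hE p hp.1
          have h3 := h1 p.2 ((m2 _).1 hp'.1.2).1
          exact lt_asymm h3 h2
        have i1 := ih Q₁.card (by omega) Q₁ s1 rfl (min α s) (max β s)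
          ((min_le_left _ _).trans (hαβ.trans (le_max_left _ _))) hlen (E₁ ∪ C) (by
            intro p hp
            rcases mem_union.1 hp with hp | hp
            · rw [hE1, mem_filter] at hp
              obtain ⟨-, h1, h2, s', b', h3, h4, h5, h6, h7⟩ := hE p hp.1
              exact ⟨hp.2, h1, h2, s', b', (min_le_left _ _).trans h3, h4.trans (le_max_left _ _),
                h5, fun z hz => h6 z ((m1 z).1 hz).1, h7⟩
            · rw [hC, mem_filter, mem_product] at hp
              exact ⟨hp.1.1, s2 hp.1.2, hp.2, s, b, min_le_right _ _, le_max_right _ _, hl,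
                fun z hz => ((m1 z).1 hz).2, ((m2 _).1 hp.1.2).2⟩)
        have i2 := ih Q₂.card (by omega) Q₂ s2 rfl α β hαβ hW E₂ (by
            intro p hp
            rw [hE2, mem_filter] at hp
            obtain ⟨-, h1, h2, s', b', h3, h4, h5, h6, h7⟩ := hE p hp.1
            exact ⟨hp.2, h1, h2, s', b', h3, h4, h5, fun z hz => h6 z ((m2 z).1 hz).1, h7⟩)
        rw [card_union_of_disjoint hdis, hCc] at i1
        rw [cn_split hd hu, hEc]
        omega
      · refine hbad lam hl1 hl2 X hX Q hQ ((α + β) / 2) ?_ E ?_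
        · intro s b hl hz1 hz2
          -- an angle near the middle of the arc
          obtain ⟨k, hk⟩ : ∃ k : ℤ, |s + k * π - (α + β) / 2| ≤ π / 2 := by
            refine ⟨-round ((s - (α + β) / 2) / π), ?_⟩
            have h1 := abs_sub_round ((s - (α + β) / 2) / π)
            have hπ := Real.pi_pos
            have h2 : s + ((-round ((s - (α + β) / 2) / π) : ℤ) : ℝ) * π - (α + β) / 2 =
                ((s - (α + β) / 2) / π - round ((s - (α + β) / 2) / π)) * π := by
              push_cast
              field_simp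
              ring
            rw [h2, abs_mul, abs_of_pos hπ]
            nlinarith
          obtain ⟨b', hl', hz1', hz2'⟩ := turn hl hz1 hz2 k
          obtain ⟨s', hs'⟩ : ∃ s', s' = s + k * π := ⟨_, rfl⟩
          rw [← hs'] at hk hl' hz1' hz2'
          have hlen : π - 2 * ε ≤ max β s' - min α s' := by
            by_contra hcon
            push Not at hcon
            exact hcase ⟨s', b', hl', hz1', hz2', hcon⟩
          have hcos : |cos (s - (α + β) / 2)| = |cos (s' - (α + β) / 2)| := by
            have e : s' - (α + β) / 2 = (s - (α + β) / 2) + k * π := by rw [hs']; ring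
            rw [e]
            rcases Int.even_or_odd' k with ⟨m, hm | hm⟩
            · have e2 : (s - (α + β) / 2) + (k : ℝ) * π = (s - (α + β) / 2) + m * (2 * π) := by
                rw [hm]
                push_cast
                ring
              rw [e2, cos_add_int_mul_two_pi]
            · have e2 : (s - (α + β) / 2) + (k : ℝ) * π =
                  ((s - (α + β) / 2) + π) + m * (2 * π) := by
                rw [hm]
                push_cast
                ring
              rw [e2, cos_add_int_mul_two_pi, cos_add_pi, abs_neg]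
          rw [hcos, ← hsin, ← Real.cos_pi_div_two_sub]
          have habs : π / 2 - ε < |s' - (α + β) / 2| := by
            rcases le_total s' β with h1 | h1
            · rcases le_total α s' with h2 | h2
              · rw [max_eq_left h1, min_eq_left h2] at hlen
                linarith
              · rw [max_eq_left h1, min_eq_right h2] at hlen
                have := neg_abs_le (s' - (α + β) / 2)
                linarith
            · have h2 : α ≤ s' := hαβ.trans h1
              rw [max_eq_right h1, min_eq_left h2] at hlen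
              have := le_abs_self (s' - (α + β) / 2)
              linarith
          rw [← Real.cos_abs (s' - (α + β) / 2)]
          rw [abs_of_nonneg (Real.cos_nonneg_of_neg_pi_div_two_le_of_le
            (by linarith [abs_nonneg (s' - (α + β) / 2), Real.pi_pos]) hk)]
          exact Real.cos_lt_cos_of_nonneg_of_le_pi (by linarith) (by linarith [Real.pi_pos]) habs
        · intro p hp
          obtain ⟨h0, h1, h2, s, b, h3, h4, h5, h6, h7⟩ := hE p hp
          refine ⟨h0, h1, h2, s, b, ?_, h5, h6, h7⟩
          rw [← hε, abs_lt]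
          constructor <;> linarith
  intro Q hQ α β hαβ hW E hE
  rw [← hε] at hW
  exact main Q.card Q hQ rfl α β hαβ hW E hE

end Pool.Agent.Q285.LS
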