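import Pool.Agent.Q47.LS.Stm

/-!
# Project LS of helper47: contact numbers of unions
-/

set_option autoImplicit false

namespace Pool.Agent.Q285.LS

open Real Pool.Agent.Q47.LS Finset

theorem cn_sum (A B : Finset Pt) : cn A B = ∑ z ∈ A, ∑ w ∈ B, if dsq z w = 4 then 1 else 0 := by
  unfold cn
  rw [card_filter, sum_product]

theorem cn_comm (A B : Finset Pt) : cn A B = cn B A := by
  rw [cn_sum, cn_sum, sum_comm]
  refine sum_congr rfl fun z _ => sum_congr rfl fun w _ => ?_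
  rw [dsq_comm]

theorem cn_mono_right {A B C : Finset Pt} (h : B ⊆ C) : cn A B ≤ cn A C := by
  unfold cn
  exact card_le_card (filter_subset_filter _ (product_subset_product_right h))

/-- the two parts of a set -/
theorem cn_left {Q Q₁ Q₂ : Finset Pt} (hd : Disjoint Q₁ Q₂) (hu : ∀ z, z ∈ Q ↔ z ∈ Q₁ ∨ z ∈ Q₂)
    (B : Finset Pt) : cn Q B = cn Q₁ B + cn Q₂ B := by
  classical
  have h : Q = Q₁ ∪ Q₂ := by
    ext z
    rw [hu, mem_union]
  rw [h, cn_sum, cn_sum, cn_sum, sum_union hd]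

theorem cn_split {Q Q₁ Q₂ : Finset Pt} (hd : Disjoint Q₁ Q₂) (hu : ∀ z, z ∈ Q ↔ z ∈ Q₁ ∨ z ∈ Q₂) :
    cn Q Q = cn Q₁ Q₁ + cn Q₂ Q₂ + 2 * cn Q₁ Q₂ := by
  rw [cn_left hd hu, cn_comm Q₁ Q, cn_comm Q₂ Q, cn_left hd hu, cn_left hd hu, cn_comm Q₂ Q₁]
  ring

/-- the parts of a set on the two sides of a line -/
theorem parts {lam : ℝ} (hlam : 0 < lam) {X : Finset Pt} {s b : ℝ} (hl : Line lam X s b)
    {Q : Finset Pt} (hQ : Q ⊆ X) : Disjoint (Q.filter fun z => lf s z < b)
      (Q.filter fun z => b < lf s z) ∧ (∀ z, z ∈ Q ↔ z ∈ (Q.filter fun z => lf s z < b) ∨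
        z ∈ (Q.filter fun z => b < lf s z)) ∧
      (Q.filter fun z => lf s z < b).card + (Q.filter fun z => b < lf s z).card = Q.card := by
  classical
  have h1 : Disjoint (Q.filter fun z => lf s z < b) (Q.filter fun z => b < lf s z) := by
    rw [Finset.disjoint_left]
    intro z hz hz'
    have h1 := (mem_filter.1 hz).2
    have h2 := (mem_filter.1 hz').2
    exact lt_asymm h1 h2
  have h2 : ∀ z, z ∈ Q ↔ z ∈ (Q.filter fun z => lf s z < b) ∨
        z ∈ (Q.filter fun z => b < lf s z) := by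
    intro z
    rw [mem_filter, mem_filter]
    constructor
    · intro hz
      rcases hl.lt_or_gt hlam (hQ hz) with h | h
      · exact Or.inl ⟨hz, h⟩
      · exact Or.inr ⟨hz, h⟩
    · rintro (h | h)
      · exact h.1
      · exact h.1
  refine ⟨h1, h2, ?_⟩
  rw [← card_union_of_disjoint h1]
  congr 1
  ext z
  rw [mem_union, ← h2]

/-- turning a line by multiples of `π` -/
theorem turn {lam : ℝ} {X Q : Finset Pt} {s b : ℝ} (hl : Line lam X s b)
    (h1 : ∃ z ∈ Q, lf s z < b) (h2 : ∃ z ∈ Q, b < lf s z) (n : ℤ) :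
    ∃ b', Line lam X (s + n * π) b' ∧ (∃ z ∈ Q, lf (s + n * π) z < b') ∧
      ∃ z ∈ Q, b' < lf (s + n * π) z := by
  rcases Int.even_or_odd' n with ⟨m, hm | hm⟩
  · have h3 : ∀ z, lf (s + n * π) z = lf s z := by
      intro z
      have e : s + n * π = s + m * (2 * π) := by
        rw [hm]
        push_cast
        ring
      rw [e, lf_add_two_pi_int]
    refine ⟨b, fun z hz => ?_, ?_, ?_⟩
    · rw [h3]
      exact hl z hz
    · obtain ⟨z, hz, hz'⟩ := h1
      exact ⟨z, hz, by rw [h3]; exact hz'⟩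
    · obtain ⟨z, hz, hz'⟩ := h2
      exact ⟨z, hz, by rw [h3]; exact hz'⟩
  · have h3 : ∀ z, lf (s + n * π) z = - lf s z := by
      intro z
      have e : s + n * π = (s + π) + m * (2 * π) := by
        rw [hm]
        push_cast
        ring
      rw [e, lf_add_two_pi_int, lf_add_pi]
    refine ⟨-b, fun z hz => ?_, ?_, ?_⟩
    · rw [h3, show -lf s z - -b = -(lf s z - b) by ring, abs_neg]
      exact hl z hz
    · obtain ⟨z, hz, hz'⟩ := h2
      exact ⟨z, hz, by rw [h3]; linarith⟩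
    · obtain ⟨z, hz, hz'⟩ := h1
      exact ⟨z, hz, by rw [h3]; linarith⟩

end Pool.Agent.Q285.LS
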