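import Pool.Agent.Q47.LS.Stm

/-!
# Project LS of helper47: the case of nearly parallel lines (JOB LS-PAR)
-/

set_option autoImplicit false

namespace Pool.Agent.Q285.LS

open Real Pool.Agent.Q47.LS Finset

/-- two unit normals at a small angle -/
theorem near {sg s t : ℝ} (hsg : 0 ≤ sg) (hc : 1 - 2 * sg ^ 2 ≤ cos (s - t)) {z w : Pt}
    (hd : dsq z w = 4) : |(lf s w - lf s z) - (lf t w - lf t z)| ≤ 4 * sg := by
  obtain ⟨p, hp⟩ : ∃ p, p = cos s - cos t := ⟨_, rfl⟩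
  obtain ⟨q, hq⟩ : ∃ q, q = sin s - sin t := ⟨_, rfl⟩
  obtain ⟨x, hx⟩ : ∃ x, x = w.1 - z.1 := ⟨_, rfl⟩
  obtain ⟨y, hy⟩ : ∃ y, y = w.2 - z.2 := ⟨_, rfl⟩
  have e1 : (lf s w - lf s z) - (lf t w - lf t z) = p * x + q * y := by
    unfold lf
    rw [hp, hq, hx, hy]
    ring
  have e2 : p ^ 2 + q ^ 2 = 2 - 2 * cos (s - t) := by
    rw [hp, hq, cos_sub]
    nlinarith [cos_sq_add_sin_sq s, cos_sq_add_sin_sq t]
  have e3 : x ^ 2 + y ^ 2 = 4 := by
    rw [hx, hy, ← hd]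
    unfold dsq
    ring
  rw [e1]
  apply abs_le_of_sq_le_sq _ (by positivity)
  have e4 : (p * x + q * y) ^ 2 ≤ (p ^ 2 + q ^ 2) * (x ^ 2 + y ^ 2) := by
    nlinarith [sq_nonneg (p * y - q * x)]
  rw [e2, e3] at e4
  nlinarith

theorem t_par : S_par := by
  classical
  intro lam hl1 hl2 X hX A hA t c htc hAc hsp
  have h3 : √3 * √3 = 3 := Real.mul_self_sqrt (by norm_num)
  have h30 : 0 < √3 := Real.sqrt_pos.mpr (by norm_num)
  have h31 : 1.73 < √3 := by nlinarith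
  have hlam : 0 < lam := by linarith
  obtain ⟨sg, hsg⟩ : ∃ sg, sg = 1 - lam := ⟨_, rfl⟩
  rw [← hsg] at hsp
  have hsg0 : 0 ≤ sg := by linarith
  have hsg1 : sg < 0.14 := by
    rw [hsg]
    norm_num at h31 ⊢
    linarith
  obtain ⟨Up, hUp⟩ : ∃ Up : Pt × Pt → Prop, ∀ p, Up p ↔ (p.1 ∈ A ∧ p.2 ∈ A ∧ dsq p.1 p.2 = 4 ∧
    ∃ s b, Line lam X s b ∧ lf s p.1 < b ∧ b < lf s p.2 ∧ 1 - 2 * sg ^ 2 ≤ cos (s - t)) :=
    ⟨_, fun p => Iff.rfl⟩
  obtain ⟨P, hP⟩ : ∃ P, P = (A ×ˢ A).filter fun p => dsq p.1 p.2 = 4 := ⟨_, rfl⟩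
  obtain ⟨V, hV⟩ : ∃ V, V = (A ×ˢ (X.filter fun z => c < lf t z)).filter
    fun p => dsq p.1 p.2 = 4 := ⟨_, rfl⟩
  have hPc : cn A A = P.card := by rw [hP]; rfl
  have hVc : cn A (X.filter fun z => c < lf t z) = V.card := by rw [hV]; rfl
  obtain ⟨U, hU⟩ : ∃ U, U = P.filter fun p => Up p := ⟨_, rfl⟩
  have mU : ∀ p, p ∈ U ↔ Up p := by
    intro p
    rw [hU, mem_filter, hP, mem_filter, mem_product]
    constructor
    · exact fun h => h.2
    · intro h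
      have h' := (hUp p).1 h
      exact ⟨⟨⟨h'.1, h'.2.1⟩, h'.2.2.1⟩, h⟩
  have mV : ∀ p, p ∈ V ↔ p.1 ∈ A ∧ p.2 ∈ X ∧ c < lf t p.2 ∧ dsq p.1 p.2 = 4 := by
    intro p
    rw [hV, mem_filter, mem_product, mem_filter]
    tauto
  -- step 1
  have hcov : P ⊆ U ∪ U.image Prod.swap := by
    intro p hp
    rw [hP, mem_filter, mem_product] at hp
    obtain ⟨⟨h1, h2⟩, h4⟩ := hp
    have hne : p.1 ≠ p.2 := by
      intro h
      rw [h, dsq_self] at h4
      norm_num at h4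
    obtain ⟨s, b, hl, hz, hw⟩ := hX.sep p.1 (hA h1) p.2 (hA h2) hne
    have h5 := hsp s b hl ⟨_, h1, hz⟩ ⟨_, h2, hw⟩
    rw [mem_union, mem_image]
    rcases le_or_gt 0 (cos (s - t)) with h6 | h6
    · left
      rw [abs_of_nonneg h6] at h5
      exact (mU _).2 ((hUp _).2 ⟨h1, h2, h4, s, b, hl, hz, hw, h5⟩)
    · right
      rw [abs_of_neg h6] at h5
      refine ⟨(p.2, p.1), (mU _).2 ((hUp _).2 ⟨h2, h1, by rw [dsq_comm]; exact h4, s + π, -b,
        hl.flip, ?_, ?_, ?_⟩), rfl⟩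
      · rw [lf_add_pi]
        linarith
      · rw [lf_add_pi]
        linarith
      · rw [show s + π - t = (s - t) + π by ring, cos_add_pi]
        exact h5
  have hc1 : cn A A ≤ 2 * U.card := by
    rw [hPc]
    have h1 := card_le_card hcov
    have h2 := card_union_le U (U.image Prod.swap)
    have h4 := card_image_le (s := U) (f := Prod.swap)
    omega
  -- step 2
  have hinj : Set.InjOn Prod.fst (U : Set (Pt × Pt)) := by
    rintro ⟨z, z₁⟩ hp ⟨z', z₂⟩ hq heq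
    simp only at heq
    subst heq
    rw [mem_coe, mU, hUp] at hp hq
    obtain ⟨a1, a2, a3, s₁, b₁, a4, a5, a6, a7⟩ := hp
    obtain ⟨b1, b2, b3, s₂, b₂, b4, b5, b6, b7⟩ := hq
    simp only at *
    by_contra hne
    have hne' : z₁ ≠ z₂ := fun h => hne (by rw [h])
    have v1 := (vertex hl1 hX (hA a1) (hA a2) (hA b2) a3 b3 hne' a4 a5 a6).2
    have v2 := b4.le_of_lt (hA b1) b5
    have v3 := b4.ge_of_gt (hA b2) b6
    have v4 := abs_le.1 (near hsg0 a7 b3)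
    have v5 := abs_le.1 (near hsg0 b7 b3)
    norm_num at hsg1
    linarith [v4.1, v4.2, v5.1, v5.2]
  -- step 4
  have hinj2 : Set.InjOn Prod.fst (V : Set (Pt × Pt)) := by
    rintro ⟨z, z₁⟩ hp ⟨z', z₂⟩ hq heq
    simp only at heq
    subst heq
    rw [mem_coe, mV] at hp hq
    obtain ⟨a1, a2, a3, a4⟩ := hp
    obtain ⟨b1, b2, b3, b4⟩ := hq
    simp only at *
    rw [unique_above hl1 hX (hA a1) a2 b2 a4 b4 htc (hAc _ a1) a3 b3]
  -- step 3
  have hdis : Disjoint (U.image Prod.fst) (V.image Prod.fst) := by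
    rw [Finset.disjoint_left]
    intro z hz hz'
    rw [mem_image] at hz hz'
    obtain ⟨⟨z₀, z₁⟩, hp, h0⟩ := hz
    obtain ⟨⟨z₀', y⟩, hq, h0'⟩ := hz'
    simp only at h0 h0'
    subst h0
    subst h0'
    rw [mU, hUp] at hp
    rw [mV] at hq
    obtain ⟨a1, a2, a3, s₁, b₁, a4, a5, a6, a7⟩ := hp
    obtain ⟨b1, b2, b3, b4⟩ := hq
    simp only at *
    have hne : y ≠ z₁ := by
      intro h
      rw [h] at b3
      exact lt_asymm b3 (hAc _ a2)
    have v1 := (vertex hl1 hX (hA a1) b2 (hA a2) b4 a3 hne htc (hAc _ a1) b3).2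
    have v2 := a4.le_of_lt (hA a1) a5
    have v3 := a4.ge_of_gt (hA a2) a6
    have v4 := abs_le.1 (near hsg0 a7 a3)
    norm_num at hsg1
    linarith [v4.1, v4.2]
  have hc2 : U.card + V.card ≤ A.card := by
    rw [← card_image_of_injOn hinj, ← card_image_of_injOn hinj2, ← card_union_of_disjoint hdis]
    apply card_le_card
    intro z hz
    rw [mem_union, mem_image, mem_image] at hz
    rcases hz with ⟨p, hp, rfl⟩ | ⟨p, hp, rfl⟩
    · rw [mU, hUp] at hp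
      exact hp.1
    · rw [mV] at hp
      exact hp.1
  rw [hVc]
  omega

end Pool.Agent.Q285.LS
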